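import Pool.Agent.Q214.SP.CorGal

/-! # Project SP (helper283), job COR: the induced cocycle -/

set_option autoImplicit false

namespace Pool.Agent.Q214.SP

open NumberField IsDedekindDomain Filter Topology Finset
open Pool.Agent.Q283.LS (Dec Inr)
open Pool.Agent.Q283.SP
open Pool.Agent.Q150.LS (Ex Ex_mem Ex_not Ex_add Ex_smul Ex_cont DecS mem_DecS js js_apply conj_apply dec_conj inr_conj
  fix_mem nf)
open Pool.Agent.Q7.LK (IsPow)

section Sum

variable {Γ : Type} [Group Γ] {R : Type} [CommRing R] {p : ℕ} [NeZero p]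
variable {G H : Subgroup Γ} {s : Γ → ZMod p} {t : ZMod p → Γ} {ρ : Γ →* R} {f : Γ → R}

theorem sum_shift (v : ZMod p → R) (k : ZMod p) : ∑ i, v (i - k) = ∑ i, v i :=
  Equiv.sum_comp (Equiv.subRight k) v

theorem C_coc (h : Sg G H s) (ht : Rp G s t) (hf : Cc H ρ f) {g g' : Γ} (hg : g ∈ G) (hg' : g' ∈ G) :
    ∑ i, W ρ s t f (g * g') i = ∑ i, W ρ s t f g i + ρ g * ∑ i, W ρ s t f g' i := by
  rw [sum_congr rfl fun i _ => W_coc h ht hf hg hg' i, sum_add_distrib, ← mul_sum,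
    sum_shift (fun i => W ρ s t f g' i) (s g)]

theorem C_pow (h : Sg G H s) (ht : Rp G s t) (hf : Cc H ρ f) {g : Γ} (hg : g ∈ G) (hρ : ρ g = 1) (n : ℕ) :
    ∑ i, W ρ s t f (g ^ n) i = n * ∑ i, W ρ s t f g i := by
  induction n with
  | zero =>
    have h1 := C_coc h ht hf G.one_mem G.one_mem
    rw [mul_one, map_one, one_mul] at h1
    rw [pow_zero, Nat.cast_zero, zero_mul]
    linear_combination -h1
  | succ n ih =>
    rw [pow_succ, C_coc h ht hf (G.pow_mem hg n) hg, ih, map_pow, hρ, one_pow]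
    push_cast; ring

end Sum

section Gal

variable {Ω : Type} [Field Ω] [CharZero Ω] {p : ℕ} [Fact p.Prime]
variable {G H : Subgroup (Ω ≃ₐ[ℚ] Ω)} {s : (Ω ≃ₐ[ℚ] Ω) → ZMod p} {t : ZMod p → (Ω ≃ₐ[ℚ] Ω)} {r : ℕ}
variable {f : H → ℤ_[p]}

theorem act_apply (ρ : G → ℤ_[p]) (s : G → ZMod p) (σ : G) (m : ZMod p → ℤ_[p]) (i : ZMod p) :
    (act ρ s σ m) i = ρ σ * m (i - s σ) := rfl

theorem loc_all (h : Sg G H s) (ht : Rp G s t) (hf : IsCoc (fun σ : H => chi p σ.1 ^ r) f)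
    {l : ℕ} [Fact l.Prime] (j : Ω →+* PadicAlgCl l) (N : ℤ_[p]) (b : ZMod p → ℤ_[p])
    (hb : ∀ i, ∀ σ : H, Dec (js j (t i)) σ.1 → N * f σ = (chi p σ.1 ^ r - 1) * b i) :
    ∃ v : ZMod p → ℤ_[p], ∀ σ : G, Dec j σ.1 → N • VV H G (chr p r) s t f σ =
      act (fun σ : G => chi p σ.1 ^ r) (fun σ => s σ.1) σ v - v := by
  obtain ⟨v, hv⟩ := W_loc (ρ := chr p r) h ht (ex_coc (f := f) hf.coc) (DecS j) N b (by
    intro i g hgD _ hgH
    rw [Ex_mem f hgH, hb i ⟨_, hgH⟩ (dec_conj (t i) hgD)]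
    have h1 := rho_conj (ρ := chr (Ω := Ω) p r) (t i) g
    rw [chr_apply, chr_apply] at h1
    rw [chr_apply, h1])
  refine ⟨v, fun σ hσ => ?_⟩
  funext i
  exact hv σ.1 hσ σ.2 i

theorem sha_part [IsAlgClosed Ω] (h : Sg G H s) (ht : Rp G s t) (hopen : IsOpen (H : Set (Ω ≃ₐ[ℚ] Ω))) {S : Set ℕ}
    (hpS : p ∈ S) (hf : InSha S (fun σ : H => chi p σ.1 ^ r) f) :
    InSha S (fun σ : G => chi p σ.1 ^ r) (fun σ => ∑ i, VV H G (chr p r) s t f σ i) := by
  have hc := ex_coc (ρ := chr p r) (f := f) hf.coc.coc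
  refine ⟨⟨?_, ?_⟩, ?_, ?_⟩
  · exact continuous_finsetSum _ fun i _ => (continuous_apply i).comp (VV_cont h hopen (chr p r) t hf.coc.cont)
  · intro σ τ
    exact C_coc h ht hc σ.2 τ.2
  · intro l _ hl j σ hσ
    have hlp : l ≠ p := by
      rintro rfl
      exact hl hpS
    have hρ : chr p r σ.1 = 1 := by rw [chr_apply, chi_inr hlp hσ, one_pow]
    have h1 := C_pow h ht hc σ.2 hρ p
    have hs : s (σ.1 ^ p) = 0 := by rw [h.pow σ.2]; simp
    have hH : σ.1 ^ p ∈ H := (h.mem _ (G.pow_mem σ.2 p)).2 hs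
    have h2 : ∀ i, W (chr p r) s t (Ex H f) (σ.1 ^ p) i = 0 := by
      intro i
      unfold W
      rw [hs, sub_zero, Ex_mem f (conj_mem h ht hH i), hf.unr l hl (js j (t i)) ⟨_, conj_mem h ht hH i⟩
        (inr_conj (t i) (inr_pow hσ p)), mul_zero]
    rw [sum_congr rfl fun i _ => h2 i, sum_const_zero] at h1
    have hp0 : (p : ℤ_[p]) ≠ 0 := by exact_mod_cast (Fact.out : p.Prime).ne_zero
    exact (mul_eq_zero.1 h1.symm).resolve_left hp0
  · intro l _ hl j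
    choose b hb using fun i => hf.loc l hl (js j (t i))
    obtain ⟨v, hv⟩ := loc_all h ht hf.coc j 1 b (fun i σ hσ => by rw [one_mul]; exact hb i σ hσ)
    refine ⟨∑ i, v i, fun σ hσ => ?_⟩
    have h1 := hv σ hσ
    rw [one_smul] at h1
    rw [h1]
    have h2 : ∀ i, (act (fun σ : G => chi p σ.1 ^ r) (fun σ => s σ.1) σ v - v) i =
        chi p σ.1 ^ r * v (i - s σ.1) - v i := fun i => rfl
    rw [sum_congr rfl fun i _ => h2 i, sum_sub_distrib, ← mul_sum, sum_shift v (s σ.1)]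
    ring

end Gal

theorem cor (hLT : S_LT) : S_COR := by
  intro p _ hp2 Ω _ _ _ _ F _ ζ d x hζ hx hd S r hpS hr
  have km : Km F ζ d x p := ⟨hζ.map_of_injective (algebraMap F Ω).injective, hx, hd⟩
  have sg := km.sg
  obtain ⟨g1, hg1, hs1⟩ := km.exists_g
  obtain ⟨t, ht, -⟩ := exists_rp sg ⊤ hg1 (Subgroup.mem_top _) hs1
  obtain ⟨hNL, hopen⟩ := nf (F := F) x
  refine ⟨VV _ _ (chr p r) (fun σ => ex (p := p) (ζ : Ω) x σ) t, fun f hf => ⟨sha_part sg ht hopen hpS hf, ⟨?_, ?_⟩, ?_⟩,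
    ?_, ?_⟩
  · exact VV_cont sg hopen (chr p r) t hf.coc.cont
  · intro σ τ
    funext i
    exact W_coc sg ht (ex_coc (ρ := chr p r) (f := f) hf.coc.coc) σ.2 τ.2 i
  · intro l _ j
    have key : ∀ j' : Ω →+* PadicAlgCl l, ∃ n b : ℤ_[p], n ≠ 0 ∧
        ∀ σ : (F ⊔ IntermediateField.adjoin ℚ {x}).fixingSubgroup, Dec j' σ.1 → n * f σ = (chi p σ.1 ^ r - 1) * b := by
      intro j'
      by_cases hl : l ∈ S
      · obtain ⟨b, hb⟩ := hf.loc l hl j'
        exact ⟨1, b, one_ne_zero, fun σ hσ => by rw [one_mul]; exact hb σ hσ⟩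
      · exact hLT p Ω _ l j' r hr f hf.coc (fun σ hσ => hf.unr l hl j' σ hσ)
    choose n b hn hb using fun i => key (js j (t i))
    obtain ⟨v, hv⟩ := loc_all sg ht hf.coc j (∏ i, n i) (fun i => (∏ k ∈ univ.erase i, n k) * b i) (by
      intro i σ hσ
      have h1 := hb i σ hσ
      have h2 : n i * ∏ k ∈ univ.erase i, n k = ∏ i, n i := mul_prod_erase univ n (mem_univ i)
      rw [← h2]
      linear_combination (∏ k ∈ univ.erase i, n k) * h1)
    exact ⟨∏ i, n i, v, prod_ne_zero_iff.2 fun i _ => hn i, hv⟩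
  · intro b
    refine ⟨fun i => chr p r (t i) * b, fun σ => ?_⟩
    funext i
    have hm := arg_mem sg ht σ.2 i
    have h1 := W_cob (ρ := chr p r) (s := fun σ => ex (p := p) (ζ : Ω) x σ) (t := t)
      (f := Ex (F ⊔ IntermediateField.adjoin ℚ {x}).fixingSubgroup (fun σ => (chi p σ.1 ^ r - 1) * b))
      (g := σ.1) (i := i) (n := 1) (b := b) (by
        rw [Ex_mem _ hm, one_mul]
        rfl)
    rw [one_mul] at h1
    exact h1
  · intro f σ τ hτ
    have h1 : τ.1 ∈ (F ⊔ IntermediateField.adjoin ℚ {x}).fixingSubgroup := by rw [hτ]; exact σ.2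
    rw [VV_apply, W_zero sg ht h1, Ex_mem f h1]
    congr 1
    exact Subtype.ext hτ

end Pool.Agent.Q214.SP
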