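import Mathlib

/-! # Project SP, job COR: induced cocycles, the abstract part -/

set_option autoImplicit false

namespace Pool.Agent.Q214.SP

open Finset Filter Topology

variable {Γ : Type} [Group Γ] {R : Type} [CommRing R] {p : ℕ} [NeZero p]

/-- the setting: `s` is a homomorphism on `G` with the kernel `H` -/
structure Sg (G H : Subgroup Γ) (s : Γ → ZMod p) : Prop where
  le : H ≤ G
  mul : ∀ a ∈ G, ∀ b ∈ G, s (a * b) = s a + s b
  mem : ∀ a ∈ G, (a ∈ H ↔ s a = 0)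

/-- representatives -/
structure Rp (G : Subgroup Γ) (s : Γ → ZMod p) (t : ZMod p → Γ) : Prop where
  mem : ∀ i, t i ∈ G
  val : ∀ i, s (t i) = i
  zero : t 0 = 1

/-- the induced cocycle -/
def W (ρ : Γ →* R) (s : Γ → ZMod p) (t : ZMod p → Γ) (f : Γ → R) (g : Γ) (i : ZMod p) : R :=
  ρ (t i) * f ((t i)⁻¹ * g * t (i - s g))

/-- cocycles on `H` -/
def Cc (H : Subgroup Γ) (ρ : Γ →* R) (f : Γ → R) : Prop := ∀ a ∈ H, ∀ b ∈ H, f (a * b) = f a + ρ a * f b

variable {G H : Subgroup Γ} {s : Γ → ZMod p} {t : ZMod p → Γ} {ρ : Γ →* R} {f : Γ → R}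

omit [NeZero p] in
theorem Sg.one (h : Sg G H s) : s 1 = 0 := by
  have := h.mul 1 G.one_mem 1 G.one_mem
  rw [mul_one] at this
  linear_combination -this

omit [NeZero p] in
theorem Sg.inv (h : Sg G H s) {a : Γ} (ha : a ∈ G) : s a⁻¹ = - s a := by
  have := h.mul a ha a⁻¹ (G.inv_mem ha)
  rw [mul_inv_cancel, h.one] at this
  linear_combination -this

omit [NeZero p] in
theorem Sg.pow (h : Sg G H s) {a : Γ} (ha : a ∈ G) (n : ℕ) : s (a ^ n) = n * s a := by
  induction n with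
  | zero => rw [pow_zero, h.one]; simp
  | succ n ih =>
    rw [pow_succ, h.mul _ (G.pow_mem ha n) _ ha, ih]
    push_cast; ring

omit [NeZero p] in
theorem arg_mem (h : Sg G H s) (ht : Rp G s t) {g : Γ} (hg : g ∈ G) (i : ZMod p) :
    (t i)⁻¹ * g * t (i - s g) ∈ H := by
  have h1 := G.mul_mem (G.inv_mem (ht.mem i)) hg
  rw [h.mem _ (G.mul_mem h1 (ht.mem _)), h.mul _ h1 _ (ht.mem _), h.mul _ (G.inv_mem (ht.mem i)) _ hg,
    h.inv (ht.mem i), ht.val, ht.val]
  ring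

omit [NeZero p] in
theorem rho_arg (g : Γ) (i k : ZMod p) : ρ (t i) * ρ ((t i)⁻¹ * g * t k) = ρ g * ρ (t k) := by
  rw [← map_mul, ← map_mul]
  congr 1
  group

omit [NeZero p] in
theorem W_coc (h : Sg G H s) (ht : Rp G s t) (hf : Cc H ρ f) {g g' : Γ} (hg : g ∈ G) (hg' : g' ∈ G) (i : ZMod p) :
    W ρ s t f (g * g') i = W ρ s t f g i + ρ g * W ρ s t f g' (i - s g) := by
  unfold W
  have e : (t i)⁻¹ * (g * g') * t (i - s (g * g')) =
      ((t i)⁻¹ * g * t (i - s g)) * ((t (i - s g))⁻¹ * g' * t (i - s g - s g')) := by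
    rw [h.mul _ hg _ hg', ← sub_sub]
    group
  rw [e, hf _ (arg_mem h ht hg i) _ (arg_mem h ht hg' _), mul_add, ← mul_assoc, rho_arg]
  ring

omit [NeZero p] in
theorem W_cob {g : Γ} {i : ZMod p} {n b : R}
    (hb : n * f ((t i)⁻¹ * g * t (i - s g)) = (ρ ((t i)⁻¹ * g * t (i - s g)) - 1) * b) :
    n * W ρ s t f g i = ρ g * (ρ (t (i - s g)) * b) - ρ (t i) * b := by
  unfold W
  have h1 := rho_arg (ρ := ρ) (t := t) g i (i - s g)
  linear_combination ρ (t i) * hb + b * h1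

omit [NeZero p] in
theorem W_zero (h : Sg G H s) (ht : Rp G s t) {g : Γ} (hg : g ∈ H) : W ρ s t f g 0 = f g := by
  unfold W
  rw [(h.mem g (h.le hg)).1 hg, sub_zero, ht.zero, map_one, one_mul, inv_one, one_mul, mul_one]

omit [NeZero p] in
theorem Cc.one (hf : Cc H ρ f) : f 1 = 0 := by
  have := hf 1 H.one_mem 1 H.one_mem
  rw [mul_one, map_one, one_mul] at this
  linear_combination -this

omit [NeZero p] in
theorem W_change (h : Sg G H s) (ht : Rp G s t) (hf : Cc H ρ f) {t' : ZMod p → Γ} (ht' : Rp G s t') {g : Γ}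
    (hg : g ∈ G) (i : ZMod p) :
    W ρ s t' f g i = W ρ s t f g i + (ρ g * (ρ (t (i - s g)) * f ((t (i - s g))⁻¹ * t' (i - s g))) -
      ρ (t i) * f ((t i)⁻¹ * t' i)) := by
  have hk : ∀ i, (t i)⁻¹ * t' i ∈ H := by
    intro i
    rw [h.mem _ (G.mul_mem (G.inv_mem (ht.mem i)) (ht'.mem i)), h.mul _ (G.inv_mem (ht.mem i)) _ (ht'.mem i),
      h.inv (ht.mem i), ht.val, ht'.val]
    ring
  set k := (t i)⁻¹ * t' i with hkd
  set j := i - s g with hj
  set k' := (t j)⁻¹ * t' j with hkd'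
  set a := (t i)⁻¹ * g * t j with ha
  have hka : k ∈ H := hk i
  have hka' : k' ∈ H := hk j
  have haH : a ∈ H := arg_mem h ht hg i
  have e1 : (t' i)⁻¹ * g * t' j = k⁻¹ * (a * k') := by
    rw [hkd, ha, hkd']; group
  have e2 : ρ (t' i) = ρ (t i) * ρ k := by
    rw [← map_mul, hkd]; congr 1; group
  have e3 : ρ k * ρ k⁻¹ = 1 := by rw [← map_mul, mul_inv_cancel, map_one]
  have e4 : f k⁻¹ = - (ρ k⁻¹ * f k) := by
    have := hf _ (H.inv_mem hka) _ hka
    rw [inv_mul_cancel, hf.one] at this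
    linear_combination -this
  have e5 := rho_arg (ρ := ρ) (t := t) g i j
  unfold W
  rw [← hj, e1, e2, hf _ (H.inv_mem hka) _ (H.mul_mem haH hka'), hf _ haH _ hka', e4, ← ha]
  rw [← ha] at e5
  linear_combination (ρ (t i) * (- f k + (f a + ρ a * f k'))) * e3 + f k' * e5

omit [NeZero p] in
theorem conj_mem (h : Sg G H s) (ht : Rp G s t) {g : Γ} (hg : g ∈ H) (i : ZMod p) : (t i)⁻¹ * g * t i ∈ H := by
  have := arg_mem h ht (h.le hg) i
  rwa [(h.mem g (h.le hg)).1 hg, sub_zero] at this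

omit [NeZero p] in
theorem rho_conj (a g : Γ) : ρ (a⁻¹ * g * a) = ρ g := by
  rw [map_mul, map_mul, mul_comm, ← mul_assoc, ← map_mul, mul_inv_cancel, map_one, one_mul]

/-- representatives in the powers of one element -/
theorem exists_rp [Fact p.Prime] (h : Sg G H s) (D : Subgroup Γ) {g : Γ} (hg : g ∈ G) (hgD : g ∈ D) (hs : s g ≠ 0) :
    ∃ t : ZMod p → Γ, Rp G s t ∧ ∀ i, t i ∈ D := by
  refine ⟨fun i => g ^ (i * (s g)⁻¹).val, ⟨fun i => G.pow_mem hg _, fun i => ?_, ?_⟩, fun i => D.pow_mem hgD _⟩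
  · rw [h.pow hg, ZMod.natCast_zmod_val, mul_assoc, inv_mul_cancel₀ hs, mul_one]
  · simp

/-- the local behaviour -/
theorem W_loc [Fact p.Prime] (h : Sg G H s) (ht : Rp G s t) (hf : Cc H ρ f) (D : Subgroup Γ) (n : R)
    (b : ZMod p → R) (hb : ∀ i, ∀ g ∈ D, g ∈ G → (t i)⁻¹ * g * t i ∈ H →
      n * f ((t i)⁻¹ * g * t i) = (ρ g - 1) * b i) :
    ∃ v : ZMod p → R, ∀ g ∈ D, g ∈ G → ∀ i, n * W ρ s t f g i = ρ g * v (i - s g) - v i := by
  by_cases hD : ∀ g ∈ D, g ∈ G → s g = 0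
  · refine ⟨fun i => ρ (t i) * b i, fun g hgD hgG i => ?_⟩
    have h1 := hD g hgD hgG
    have h2 := conj_mem h ht ((h.mem g hgG).2 h1) i
    have h3 := hb i g hgD hgG h2
    unfold W
    rw [h1, sub_zero]
    linear_combination ρ (t i) * h3
  · push Not at hD
    obtain ⟨g0, hg0D, hg0G, hg0⟩ := hD
    obtain ⟨t', ht', htD⟩ := exists_rp h D hg0G hg0D hg0
    refine ⟨fun i => ρ (t' i) * b 0 - n * (ρ (t i) * f ((t i)⁻¹ * t' i)), fun g hgD hgG i => ?_⟩
    have h1 := W_change h ht hf ht' hgG i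
    have h2 := arg_mem h ht' hgG i
    have h3 := hb 0 _ (D.mul_mem (D.mul_mem (D.inv_mem (htD i)) hgD) (htD (i - s g))) (h.le h2)
      (by rw [ht.zero, inv_one, one_mul, mul_one]; exact h2)
    rw [ht.zero, inv_one, one_mul, mul_one] at h3
    have h4 := W_cob (ρ := ρ) (s := s) (t := t') (f := f) (g := g) (i := i) (n := n) (b := b 0) h3
    linear_combination h4 - n * h1

end Pool.Agent.Q214.SP
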