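import Pool.Agent.Q283.SP.Stm
import Pool.Agent.Q150.LS.COR
import Pool.Agent.Q214.SP.CorAbs

/-! # Project SP, job COR: the Galois groups -/

set_option autoImplicit false

namespace Pool.Agent.Q214.SP

open NumberField IsDedekindDomain Filter Topology Finset
open Pool.Agent.Q283.LS (Dec Inr)
open Pool.Agent.Q283.SP
open Pool.Agent.Q150.LS (Ex Ex_mem Ex_not Ex_add Ex_smul Ex_cont DecS mem_DecS js js_apply conj_apply dec_conj inr_conj
  fix_mem nf)
open Pool.Agent.Q7.LK (IsPow)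

section Ind

variable {Γ : Type} [Group Γ] {R : Type} [CommRing R] {p : ℕ}

/-- the induced cocycle as a linear map -/
noncomputable def VV (H G : Subgroup Γ) (ρ : Γ →* R) (s : Γ → ZMod p) (t : ZMod p → Γ) :
    (H → R) →ₗ[R] (G → ZMod p → R) where
  toFun f g i := W ρ s t (Ex H f) g.1 i
  map_add' f g := by
    funext τ i
    simp only [Pi.add_apply, W, Ex_add]
    ring
  map_smul' c f := by
    funext τ i
    simp only [Pi.smul_apply, W, Ex_smul, RingHom.id_apply, smul_eq_mul]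
    ring

theorem VV_apply (H G : Subgroup Γ) (ρ : Γ →* R) (s : Γ → ZMod p) (t : ZMod p → Γ) (f : H → R) (g : G) (i : ZMod p) :
    VV H G ρ s t f g i = W ρ s t (Ex H f) g.1 i := rfl

theorem VV_cont [TopologicalSpace Γ] [IsTopologicalGroup Γ] [TopologicalSpace R] [IsTopologicalRing R]
    {G H : Subgroup Γ} {s : Γ → ZMod p} (h : Sg G H s) (hH : IsOpen (H : Set Γ)) (ρ : Γ →* R) (t : ZMod p → Γ)
    {f : H → R} (hf : Continuous f) : Continuous (VV H G ρ s t f) := by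
  refine continuous_pi fun i => ?_
  rw [continuous_iff_continuousAt]
  intro g
  have h1 : Continuous (fun g' : G => ρ (t i) * Ex H f ((t i)⁻¹ * g'.1 * t (i - s g.1))) := by
    have := Ex_cont hH hf
    fun_prop
  have h2 : IsOpen {g' : G | g.1⁻¹ * g'.1 ∈ H} := by
    have h3 : Continuous (fun g' : G => g.1⁻¹ * g'.1) := by fun_prop
    exact hH.preimage h3
  have h4 : (fun g' : G => VV H G ρ s t f g' i) =ᶠ[𝓝 g] fun g' : G => ρ (t i) * Ex H f ((t i)⁻¹ * g'.1 * t (i - s g.1)) := by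
    have h5 : g ∈ {g' : G | g.1⁻¹ * g'.1 ∈ H} := by
      show g.1⁻¹ * g.1 ∈ H
      rw [inv_mul_cancel]; exact H.one_mem
    filter_upwards [h2.mem_nhds h5] with g' hg'
    have h6 : s g'.1 = s g.1 := by
      have h7 := (h.mem _ (G.mul_mem (G.inv_mem g.2) g'.2)).1 hg'
      rw [h.mul _ (G.inv_mem g.2) _ g'.2, h.inv g.2] at h7
      linear_combination h7
    rw [VV_apply]
    unfold W
    rw [h6]
  exact h1.continuousAt.congr h4.symm

theorem ex_coc {H : Subgroup Γ} {ρ : Γ →* R} {f : H → R} (hf : ∀ σ τ : H, f (σ * τ) = f σ + ρ σ.1 * f τ) :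
    Cc H ρ (Ex H f) := by
  intro a ha b hb
  rw [Ex_mem f ha, Ex_mem f hb, Ex_mem f (mul_mem ha hb)]
  exact hf ⟨a, ha⟩ ⟨b, hb⟩

end Ind

section Gal

variable {Ω : Type} [Field Ω] [CharZero Ω] {p : ℕ} [Fact p.Prime]

theorem chi_mul (σ τ : Ω ≃ₐ[ℚ] Ω) : chi p (σ * τ) = chi p σ * chi p τ := by
  unfold chi
  rw [← Units.val_mul, ← map_mul]
  rfl

theorem chi_one : chi p (1 : Ω ≃ₐ[ℚ] Ω) = 1 := by
  unfold chi
  have h : (((1 : Ω ≃ₐ[ℚ] Ω) : Ω ≃+* Ω)) = 1 := rfl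
  rw [h, map_one, Units.val_one]

/-- the power of the cyclotomic character -/
noncomputable def chr (p : ℕ) [Fact p.Prime] (r : ℕ) : (Ω ≃ₐ[ℚ] Ω) →* ℤ_[p] where
  toFun σ := chi p σ ^ r
  map_one' := by rw [chi_one, one_pow]
  map_mul' σ τ := by rw [chi_mul, mul_pow]

theorem chr_apply (r : ℕ) (σ : Ω ≃ₐ[ℚ] Ω) : chr p r σ = chi p σ ^ r := rfl

theorem pow_val_add {ζ : Ω} (h : ζ ^ p = 1) (a b : ZMod p) : ζ ^ (a + b).val = ζ ^ a.val * ζ ^ b.val := by
  rw [← pow_add, pow_eq_pow_mod (a.val + b.val) h, ← ZMod.val_add]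

/-- the setting -/
structure Km (F : IntermediateField ℚ Ω) (ζ d : F) (x : Ω) (p : ℕ) : Prop where
  prim : IsPrimitiveRoot (ζ : Ω) p
  pow : x ^ p = (d : Ω)
  not : ¬ IsPow p d

variable {F : IntermediateField ℚ Ω} {ζ d : F} {x : Ω}

theorem Km.x_ne (h : Km F ζ d x p) : x ≠ 0 := by
  rintro rfl
  apply h.not
  refine ⟨0, ?_⟩
  apply Subtype.ext
  rw [← h.pow]
  rfl

theorem Km.inj (h : Km F ζ d x p) {a b : ZMod p} (hab : (ζ : Ω) ^ a.val * x = (ζ : Ω) ^ b.val * x) : a = b := by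
  have h1 := mul_right_cancel₀ h.x_ne hab
  exact ZMod.val_injective p (h.prim.pow_inj (ZMod.val_lt a) (ZMod.val_lt b) h1)

theorem Km.ex_spec (h : Km F ζ d x p) {σ : Ω ≃ₐ[ℚ] Ω} (hσ : σ ∈ F.fixingSubgroup) :
    σ x = (ζ : Ω) ^ (ex (p := p) (ζ : Ω) x σ).val * x := by
  have hp : p.Prime := Fact.out
  have : NeZero p := ⟨hp.ne_zero⟩
  have h1 : σ (d : Ω) = d := (IntermediateField.mem_fixingSubgroup_iff F σ).1 hσ _ d.2
  have hex : ∃ s : ZMod p, σ x = (ζ : Ω) ^ s.val * x := by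
    have h2 : (σ x / x) ^ p = 1 := by
      rw [div_pow, ← map_pow, h.pow, h1, div_self]
      rw [← h.pow]
      exact pow_ne_zero _ h.x_ne
    obtain ⟨i, hi, h3⟩ := h.prim.eq_pow_of_pow_eq_one h2
    refine ⟨(i : ZMod p), ?_⟩
    rw [ZMod.val_natCast_of_lt hi, h3, div_mul_cancel₀ _ h.x_ne]
  unfold ex
  rw [dif_pos hex]
  exact hex.choose_spec

theorem Km.ex_unique (h : Km F ζ d x p) {σ : Ω ≃ₐ[ℚ] Ω} (hσ : σ ∈ F.fixingSubgroup) {a : ZMod p}
    (ha : σ x = (ζ : Ω) ^ a.val * x) : ex (ζ : Ω) x σ = a := by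
  apply h.inj
  rw [← h.ex_spec hσ, ha]

theorem Km.sg (h : Km F ζ d x p) : Sg F.fixingSubgroup (F ⊔ IntermediateField.adjoin ℚ {x}).fixingSubgroup
    (fun σ => ex (p := p) (ζ : Ω) x σ) := by
  refine ⟨fun σ hσ => ((fix_mem F x σ).1 hσ).1, fun a ha b hb => ?_, fun a ha => ?_⟩
  · apply h.ex_unique (mul_mem ha hb)
    have h1 : a (ζ : Ω) = ζ := (IntermediateField.mem_fixingSubgroup_iff F a).1 ha _ ζ.2
    rw [AlgEquiv.mul_apply, h.ex_spec hb, map_mul, map_pow, h1, h.ex_spec ha, pow_val_add h.prim.pow_eq_one]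
    ring
  · rw [fix_mem]
    constructor
    · rintro ⟨_, h1⟩
      apply h.ex_unique ha
      rw [h1]
      simp
    · intro h1
      refine ⟨ha, ?_⟩
      have h2 := h.ex_spec ha
      have h3 : ex (p := p) (ζ : Ω) x a = 0 := h1
      rw [h3] at h2
      simpa using h2

theorem Km.exists_g [IsAlgClosed Ω] [Algebra.IsAlgebraic ℚ Ω] (h : Km F ζ d x p) :
    ∃ g ∈ F.fixingSubgroup, ex (p := p) (ζ : Ω) x g ≠ 0 := by
  by_contra hcon
  push Not at hcon
  have h0 : IsAlgClosure ℚ Ω := ⟨inferInstance, inferInstance⟩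
  have h2 : IsGalois ℚ Ω := inferInstance
  have h1 : x ∈ IntermediateField.fixedField F.fixingSubgroup := by
    rw [IntermediateField.mem_fixedField_iff]
    intro σ hσ
    exact ((fix_mem F x σ).1 ((h.sg.mem σ hσ).2 (hcon σ hσ))).2
  rw [InfiniteGalois.fixedField_fixingSubgroup] at h1
  apply h.not
  refine ⟨⟨x, h1⟩, ?_⟩
  apply Subtype.ext
  rw [← h.pow]
  rfl

/-! ## inertia -/

theorem inr_one {l : ℕ} [Fact l.Prime] (j : Ω →+* PadicAlgCl l) : Inr j (1 : Ω ≃ₐ[ℚ] Ω) := by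
  refine ⟨(DecS j).one_mem, fun y _ => ?_⟩
  rw [AlgEquiv.one_apply, sub_self, norm_zero]
  exact one_pos

theorem inr_mul {l : ℕ} [Fact l.Prime] {j : Ω →+* PadicAlgCl l} {σ τ : Ω ≃ₐ[ℚ] Ω}
    (h : Inr j σ) (h' : Inr j τ) : Inr j (σ * τ) := by
  refine ⟨(DecS j).mul_mem h.1 h'.1, fun y hy => ?_⟩
  have h1 := h'.2 y hy
  have h2 : ‖j (τ y)‖ ≤ 1 := by
    have e : j (τ y) = (j (τ y) - j y) + j y := by ring
    rw [e]
    exact (PadicAlgCl.isNonarchimedean l _ _).trans (max_le h1.le hy)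
  have h3 := h.2 (τ y) h2
  rw [AlgEquiv.mul_apply]
  have e : j (σ (τ y)) - j y = (j (σ (τ y)) - j (τ y)) + (j (τ y) - j y) := by ring
  rw [e]
  exact (PadicAlgCl.isNonarchimedean l _ _).trans_lt (max_lt h3 h1)

theorem inr_pow {l : ℕ} [Fact l.Prime] {j : Ω →+* PadicAlgCl l} {σ : Ω ≃ₐ[ℚ] Ω}
    (h : Inr j σ) (n : ℕ) : Inr j (σ ^ n) := by
  induction n with
  | zero => rw [pow_zero]; exact inr_one j
  | succ n ih => rw [pow_succ]; exact inr_mul ih h

theorem root_one {l : ℕ} [Fact l.Prime] {N : ℕ} (hN : ‖(N : PadicAlgCl l)‖ = 1) {w : PadicAlgCl l}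
    (hw : w ^ N = 1) (h1 : ‖w - 1‖ < 1) : w = 1 := by
  have hN0 : N ≠ 0 := by
    rintro rfl
    simp at hN
  have hwn : ‖w‖ = 1 := by
    have h2 : ‖w‖ ^ N = 1 := by rw [← norm_pow, hw, norm_one]
    exact (pow_eq_one_iff_of_nonneg (norm_nonneg _) hN0).1 h2
  have h2 : ∀ i : ℕ, ‖w ^ i - 1‖ ≤ ‖w - 1‖ := by
    intro i
    induction i with
    | zero => rw [pow_zero, sub_self, norm_zero]; exact norm_nonneg _
    | succ i ih =>
      have e : w ^ (i + 1) - 1 = w * (w ^ i - 1) + (w - 1) := by ring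
      rw [e]
      refine (PadicAlgCl.isNonarchimedean l _ _).trans (max_le ?_ le_rfl)
      rw [norm_mul, hwn, one_mul]
      exact ih
  have h3 : ∀ n : ℕ, ‖∑ i ∈ range n, w ^ i - n‖ ≤ ‖w - 1‖ := by
    intro n
    induction n with
    | zero => simp
    | succ n ih =>
      rw [sum_range_succ]
      have e : ∑ i ∈ range n, w ^ i + w ^ n - ((n + 1 : ℕ) : PadicAlgCl l) = (∑ i ∈ range n, w ^ i - n) + (w ^ n - 1) := by
        push_cast; ring
      rw [e]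
      exact (PadicAlgCl.isNonarchimedean l _ _).trans (max_le ih (h2 n))
  by_contra hne
  have h4 : (∑ i ∈ range N, w ^ i) * (w - 1) = 0 := by rw [geom_sum_mul, hw, sub_self]
  rcases mul_eq_zero.1 h4 with h5 | h5
  · have h6 := h3 N
    rw [h5, zero_sub, norm_neg, hN] at h6
    linarith
  · exact hne (sub_eq_zero.1 h5)

theorem norm_p {l : ℕ} [Fact l.Prime] (hl : l ≠ p) (n : ℕ) : ‖((p ^ n : ℕ) : PadicAlgCl l)‖ = 1 := by
  have h1 : ((p ^ n : ℕ) : PadicAlgCl l) = (((p ^ n : ℕ) : ℚ_[l]) : PadicAlgCl l) := by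
    rw [← map_natCast (algebraMap ℚ_[l] (PadicAlgCl l)) (p ^ n)]
  rw [h1, PadicAlgCl.norm_extends, Padic.norm_natCast_eq_one_iff]
  exact Nat.Coprime.pow_right n ((Nat.coprime_primes Fact.out Fact.out).2 hl)

theorem fix_root {l : ℕ} [Fact l.Prime] (hl : l ≠ p) {j : Ω →+* PadicAlgCl l} {σ : Ω ≃ₐ[ℚ] Ω}
    (h : Inr j σ) {n : ℕ} {z : Ω} (hz : z ^ p ^ n = 1) : σ z = z := by
  have hp : p.Prime := Fact.out
  have hpn : p ^ n ≠ 0 := pow_ne_zero _ hp.ne_zero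
  have hz0 : z ≠ 0 := by
    rintro rfl
    rw [zero_pow hpn] at hz
    exact zero_ne_one hz
  have hjz : ‖j z‖ = 1 := by
    have h2 : ‖j z‖ ^ (p ^ n) = 1 := by rw [← norm_pow, ← map_pow, hz, map_one, norm_one]
    exact (pow_eq_one_iff_of_nonneg (norm_nonneg _) hpn).1 h2
  have h1 := h.2 z hjz.le
  have hjz0 : j z ≠ 0 := (map_ne_zero j).2 hz0
  have h2 : j (σ z) / j z = 1 := by
    apply root_one (N := p ^ n) (norm_p hl n)
    · rw [div_pow, ← map_pow, ← map_pow, ← map_pow, hz, map_one, map_one, div_one]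
    · have e : j (σ z) / j z - 1 = (j (σ z) - j z) / j z := by field_simp
      rw [e, norm_div, hjz, div_one]
      exact h1
  rw [div_eq_one_iff_eq hjz0] at h2
  exact j.injective h2

theorem chi_inr [IsAlgClosed Ω] {l : ℕ} [Fact l.Prime] (hl : l ≠ p) {j : Ω →+* PadicAlgCl l} {σ : Ω ≃ₐ[ℚ] Ω}
    (h : Inr j σ) : chi p σ = 1 := by
  have hp : p.Prime := Fact.out
  have hroots : ∀ n : ℕ, HasEnoughRootsOfUnity Ω (p ^ n) := by
    intro n
    have : NeZero (((p ^ n : ℕ) : Ω)) := ⟨by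
      push_cast
      exact pow_ne_zero n (Nat.cast_ne_zero.2 hp.ne_zero)⟩
    infer_instance
  refine PadicInt.ext_of_toZModPow.1 fun n => ?_
  rw [map_one]
  rcases Nat.eq_zero_or_pos n with rfl | hn
  · have : Subsingleton (ZMod (p ^ 0)) := by
      rw [pow_zero]; infer_instance
    exact Subsingleton.elim _ _
  obtain ⟨z, hz⟩ := (hroots n).exists_primitiveRoot
  have h1 := cyclotomicCharacter.spec (L := Ω) p (n := n) ((σ : Ω ≃+* Ω)) z hz.pow_eq_one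
  have h2 : ((σ : Ω ≃+* Ω)) z = z := fix_root hl h hz.pow_eq_one
  rw [h2] at h1
  have h3 : 1 < p ^ n := Nat.one_lt_pow hn.ne' hp.one_lt
  have : NeZero (p ^ n) := ⟨by omega⟩
  have : Fact (1 < p ^ n) := ⟨h3⟩
  have h4 : z ^ 1 = z ^ ((cyclotomicCharacter Ω p (σ : Ω ≃+* Ω)).val.toZModPow n).val := by rw [pow_one]; exact h1
  have h5 := hz.pow_inj h3 (ZMod.val_lt _) h4
  have h6 : (1 : ZMod (p ^ n)).val = 1 := ZMod.val_one _
  apply ZMod.val_injective (p ^ n)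
  rw [h6]
  exact h5.symm

end Gal

end Pool.Agent.Q214.SP
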